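import Pool.Agent.H78.OX.Targets
import Pool.Agent.H70.PX.Wfm

/-!
# FMX: the instances as formulas
-/

set_option autoImplicit false

namespace Pool.Agent.H86.OX

open Finset Filter Pool.Agent.H6.NB Pool.Agent.H70.OQ Pool.Agent.H70.EH Pool.Agent.H78.XQ
  Pool.Agent.H78.OX
open Pool.Agent.H48.OQ.FMG Pool.Agent.H70.PX

theorem lwg_of_lwx {B Ω : Type} {nn qb r : Ω → ℕ} (lev : Ω → ℕ) (j : ℕ)
    (c : PosG (Bz B Ω r) Ω nn qb) (h : LwX lev j c) : LwG lev j c := by
  cases c with
  | cst _ => trivial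
  | bas b => trivial
  | key s => exact h
  | blk s _ _ => exact h

open Classical in
theorem fmx (hLWX : T_LWX) (hLVL : Pool.Agent.H6.NB.T_LVL) (hFIS : Pool.Agent.H6.NB.T_FIS) :
    T_FMX := by
  intro k J hkJ prog n a t o hprog hn hnt
  have hlen : ∀ s : Om n (2 ^ a), s.1.length < t ^ 2 := fun s => lt_of_lt_of_le s.2.2 hnt
  have ht : 1 ≤ t := by
    by_contra h
    have ht0 : t = 0 := by omega
    subst ht0
    have : 0 < n ^ 2 ^ a := by positivity
    omega
  obtain ⟨Ws, hW1, hW2⟩ := hFIS.1 (t - 1)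
  rw [Nat.sub_add_cancel ht] at hW1
  have hsq : ∀ (s : Om n (2 ^ a)) (x : ℕ), x ^ 2 ≤ s.1.length → x < t := by
    intro s x hx
    by_contra hcon
    push Not at hcon
    have := Nat.pow_le_pow_left hcon 2
    have := hlen s
    omega
  have hlow : LowD (fun (s : Om n (2 ^ a)) (y : Cgx J n (2 ^ a) → Bool) =>
      decide (acck k prog s.1 (fun w => y (clx J n (2 ^ a) o w)))) (fun s => lv n s.1) := by
    intro s y y' hy
    rw [decide_eq_decide]
    unfold acck
    refine alt_congr _ k true _ _ (fun ws hl hws => ?_)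
    obtain ⟨-, m, hm, hsh⟩ := hprog s.1 ws hl hws
    rw [evc (prog s.1 ws) m (fun w => y (clx J n (2 ^ a) o w))
      (fun w => y' (clx J n (2 ^ a) o w)) hsh]
    intro w hw
    exact hy _ (hLWX J n a o s w m hn hm hw)
  refine ⟨fun s y => decide (acck k prog s.1 (fun w => y (clx J n (2 ^ a) o w))), ⟨?_, ?_, ?_⟩,
    hlow, ?_⟩
  · intro s
    have := (alt_fm (V := Cgx J n (2 ^ a)) (fun w => w.length ^ 2 ≤ s.1.length) t Ws hW1
      (fun w hw => hW2 w (by have := hsq s _ hw; omega)) k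
      (fun ws y => (prog s.1 ws).eval (fun w => y (clx J n (2 ^ a) o w)) = true) (by
        intro ws hl hws
        refine ⟨cv (clx J n (2 ^ a) o) (prog s.1 ws), ?_, fun y => ?_⟩
        · rw [cv_depth]
          exact (hsq s _ (hprog s.1 ws hl hws).1).le
        · rw [cv_eval])).1
    have h5 := fm_add Nat.one_le_two_pow (J - k) this
    rw [Nat.add_sub_cancel' hkJ] at h5
    exact h5
  · intro s y y' hy
    exact hlow s y y' fun c hc => hy c (lwg_of_lwx _ _ c hc)
  · intro s
    exact (hLVL n a hn).2 s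
  · intro s T e P
    simp only [accG, decide_eq_true_eq]

end Pool.Agent.H86.OX
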